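import Pool.Agent.Lib.MP_da0a56_lc.Rep

set_option autoImplicit false

namespace Pool.Agent.Results.MP_da0a56_lc.NearRegular

/-- Near-regular matroids are recognisable with polynomially many rank queries: there is a bound
c n^k + c such that, for every n, some adaptive strategy of that many rank queries decides, for
every matroid on n elements, whether it is represented by the columns of a matrix over Q(X) all of
whose nonzero square subdeterminants are of the form plus or minus X^i (X-1)^j. -/
theorem result :
    ∃ c k : ℕ, ∀ n : ℕ, ∃ q : List ℕ∞ → Set (Fin n), ∃ d : List ℕ∞ → Bool,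
      ∀ M : Matroid (Fin n), M.E = Set.univ →
        ∀ a : ℕ → ℕ∞,
          (∀ i, i < c * n ^ k + c → a i = M.eRk (q ((List.range i).map a))) →
          (d ((List.range (c * n ^ k + c)).map a) = true ↔
            ∃ (m : ℕ) (A : Matrix (Fin m) (Fin n) (RatFunc ℚ)),
              (∀ (s : ℕ) (ρ : Fin s → Fin m) (γ : Fin s → Fin n),
                (A.submatrix ρ γ).det ≠ 0 →
                  ∃ i j : ℤ, (A.submatrix ρ γ).det = RatFunc.X ^ i * (RatFunc.X - 1) ^ j ∨
                    (A.submatrix ρ γ).det = -(RatFunc.X ^ i * (RatFunc.X - 1) ^ j)) ∧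
              ∀ I : Set (Fin n), M.Indep I ↔ LinearIndepOn (RatFunc ℚ) A.col I) :=
  ⟨100, 3, fun _ => Pool.Agent.NearReg.solv_all _ (fun M hE h => by
    obtain ⟨m, A, hA, hv⟩ := h
    exact Pool.Agent.NearReg.tab_nr M hE A hA hv)⟩

end Pool.Agent.Results.MP_da0a56_lc.NearRegular
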