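import Pool.Agent.Lib.MP_da0a56_lc.NegHedge

set_option autoImplicit false

namespace Pool.Agent.Results.MP_da0a56_lc.SixthRootExp

open Pool.Agent

/-- Every adaptive rank-oracle strategy that recognises the matroids representable over both GF(3)
and GF(4) among all matroids on 6(m+1) elements makes at least 2^m queries. -/
theorem result (m N : ℕ) (q : List ℕ∞ → Set (Fin (6 * (m + 1)))) (d : List ℕ∞ → Bool)
    (h : ∀ M : Matroid (Fin (6 * (m + 1))), M.E = Set.univ → ∀ a : ℕ → ℕ∞,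
      (∀ i, i < N → a i = M.eRk (q ((List.range i).map a))) →
      (d ((List.range N).map a) = true ↔
        ((∃ (r : ℕ) (A : Matrix (Fin r) (Fin (6 * (m + 1))) (ZMod 3)),
            ∀ I, M.Indep I ↔ LinearIndepOn (ZMod 3) A.col I) ∧
         (∃ (r : ℕ) (A : Matrix (Fin r) (Fin (6 * (m + 1))) (GaloisField 2 2)),
            ∀ I, M.Indep I ↔ LinearIndepOn (GaloisField 2 2) A.col I)))) :
    2 ^ m ≤ N := by
  by_contra hm
  obtain ⟨M0, hE, hA, hc, ⟨v3, h3⟩, ⟨v4, h4⟩⟩ := Sixth.ex_good (Nat.succ_pos m)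
  refine Sixth.adversary _ q d h M0 hE ⟨⟨_, (Matrix.of v3).transpose, h3⟩,
    ⟨_, (Matrix.of v4).transpose, h4⟩⟩ _ (Sixth.Hs_inj m) (by simpa using hm) (fun t => ?_)
  obtain ⟨M, e, n, r⟩ := Sixth.ex_bad' (Nat.succ_pos m) M0 hA hc (Sixth.Tf t) (by simp [Sixth.Tf])
  exact ⟨M, e, fun w => by
    obtain ⟨⟨s, A, hA⟩, -⟩ := w
    exact n s A.col hA, r⟩

end Pool.Agent.Results.MP_da0a56_lc.SixthRootExp
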